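import Pool.Agent.T9h85.DO.Final

/-!
# Difference sets with Singer parameters: orders with restricted digits

`HasSingerDifferenceSet n m`: some finite group (not assumed abelian) contains a difference set with the
Singer parameters of `(n, m)`. `Liftable n m`: there is one which lifts, as the classical Singer difference
sets do, to a relative difference set in a finite group with a normal Sylow 2-subgroup (for example in a
nilpotent group). Conjecturally `n` is then a prime power.

The starting results count the orders `n ≤ X`, or consider orders from sequences which are uniformly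
distributed modulo ALL integers, for instance `⌊t ^ √2⌋`, or values of polynomials. They say nothing about a
thin set of orders which is not uniformly distributed modulo small numbers, like the set of the
integers whose decimal digits all belong to `{0, 1}`, `{1, 7}` or `{0, 5, 9}`.

**Theorem (part 1).** Let `A` be a set of natural numbers, as thin as we please, and `W ≥ 1`, such that the
members of `A` (ordered by size) are uniformly distributed modulo all integers `q` which are coprime to
`W`; nothing is assumed for the other `q`. There is ONE set `E`, of density zero relative to `A`, such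
that for ALL odd `i`

* for all `K`: for all but finitely many `n ∈ A` outside of `E`, no finite group contains a difference set
  with the Singer parameters of `(n ^ i, m)`, whatever the odd number `m ≥ 3` with least prime factor at
  most `K` is (for instance `m = 3`, planar difference sets of order `n ^ i`);
* for all but finitely many `n ∈ A` outside of `E`, no difference set with the Singer parameters of
  `(n ^ i, m)` is liftable, whatever the even number `m ≥ 4` is.

**Theorem (part 2).** Let `b 0, b 1, … ≥ 2` be bases of a mixed radix system (for instance all equal to `10`),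
at most `β`, and for each position `j` let `D j` be a set of admissible digits, not empty, with at least
two digits for infinitely many `j` (these positions may be as rare as we please). The set `A` of the integers
all of whose digits are admissible is infinite, and its members are uniformly distributed modulo all
integers which are coprime to `β!`. So part 1 holds for `A` with `W = β!`. (The number of the members of `A`
up to `X` can grow more slowly than any given unbounded function of `X`.)

Proof. If `q ≡ 1 (mod i l)` is a prime modulo which `n` has the order `i l`, `l` a prime factor of `m`, and if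
a prime `r` which is not a square modulo `q` divides `n` exactly once, then there is no difference set with
the Singer parameters of `(n ^ i, m)` (`Lander.no_difference_set` of the starting library; similarly for
liftable sets, with `q ∣ n - 1`). We may take `q` and `r` coprime to `W`. A second moment argument for events
which are asymptotically independent in pairs shows that most `n ∈ A` have a given residue of order `i l`
modulo one of finitely many `q`, and for given `q` almost all `n ∈ A` are divisible exactly once by some `r`
in a fixed class of non-squares modulo `q` (Dirichlet's theorem). A diagonal argument gives one set `E`.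
For part 2 let `q` be coprime to `β!` and `0 < a < q`. The exponential sum with the frequency `a / q` over the
integers below the place value `B_k = b 0 ⋯ b (k - 1)` with admissible digits is a product over the positions
`j`, and for two digits `d < d'` in `D j` the number `a (d' - d) B_j / q` is not an integer, so its distance
to the integers is at least `1 / q`; thus the product tends to zero relative to the number of terms.
-/

set_option autoImplicit false

namespace Pool.Agent.Results.MP_79499b_co.DigitOrders

/-- Some finite group `G` (not assumed abelian) of order `(n ^ m - 1) / (n - 1)` contains a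
difference set `D` with the Singer parameters:
`k = (n ^ (m - 1) - 1) / (n - 1)`, `lambda = (n ^ (m - 2) - 1) / (n - 1)`. -/
def HasSingerDifferenceSet (n m : ℕ) : Prop :=
  ∃ (G : Type) (_ : Group G) (_ : Fintype G) (_ : DecidableEq G) (D : Finset G),
    Fintype.card G * (n - 1) = n ^ m - 1 ∧ D.card * (n - 1) = n ^ (m - 1) - 1 ∧
    ∀ g : G, g ≠ 1 →
      ((D ×ˢ D).filter (fun p : G × G => p.1 * p.2⁻¹ = g)).card * (n - 1) = n ^ (m - 2) - 1

/-- `E` is a difference set with the Singer parameters in the finite group `Q` (not assumed
abelian): `v = (n ^ m - 1) / (n - 1)`, `k = (n ^ (m - 1) - 1) / (n - 1)`,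
`lambda = (n ^ (m - 2) - 1) / (n - 1)`. -/
def IsSinger {Q : Type} [Group Q] [Fintype Q] [DecidableEq Q] (E : Finset Q) (n m : ℕ) : Prop :=
  Fintype.card Q * (n - 1) = n ^ m - 1 ∧ E.card * (n - 1) = n ^ (m - 1) - 1 ∧
    ∀ g : Q, g ≠ 1 →
      ((E ×ˢ E).filter (fun p : Q × Q => p.1 * p.2⁻¹ = g)).card * (n - 1) = n ^ (m - 2) - 1

/-- The difference set `E` lifts to the group `G`: there are a surjective homomorphism `π : G → Q`
with a kernel of order `n - 1` and a subset `D` of `G`, mapped by `π` bijectively onto the
complement of `E`, such that each `g ∈ G` outside the kernel has exactly `n ^ (m - 2)`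
representations `g = d₁ * d₂⁻¹` with `d₁, d₂ ∈ D` (so `D` is a relative difference set in `G`, with
forbidden subgroup the kernel). -/
def LiftsTo {Q : Type} [Group Q] [Fintype Q] [DecidableEq Q] (E : Finset Q) (n m : ℕ)
    (G : Type) [Group G] [Fintype G] [DecidableEq G] : Prop :=
  ∃ (π : G →* Q) (D : Finset G), Function.Surjective π ∧ Nat.card π.ker = n - 1 ∧
    D.image π = Eᶜ ∧ Set.InjOn π D ∧
    ∀ g : G, π g ≠ 1 → ((D ×ˢ D).filter (fun p : G × G => p.1 * p.2⁻¹ = g)).card = n ^ (m - 2)

/-- There is a difference set with the Singer parameters of `(n, m)` which lifts to a finite group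
`G` with a normal Sylow 2-subgroup, i.e. with a normal subgroup of 2-power order and odd index.
(Every nilpotent group and, if `n` is even, every group `G` of order `n ^ m - 1` has one.) -/
def Liftable (n m : ℕ) : Prop :=
  ∃ (Q : Type) (_ : Group Q) (_ : Fintype Q) (_ : DecidableEq Q) (E : Finset Q)
    (G : Type) (_ : Group G) (_ : Fintype G) (_ : DecidableEq G),
    (∃ K : Subgroup G, K.Normal ∧ (∃ s, Nat.card K = 2 ^ s) ∧ Odd K.index) ∧
    IsSinger E n m ∧ LiftsTo E n m G

/-- The members of `A` up to `X`, `X → ∞`, are uniformly distributed modulo all integers `q ≥ 1` which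
are coprime to `W`. -/
def UniformlyDistributed (W : ℕ) (A : Set ℕ) : Prop :=
  ∀ q : ℕ, 1 ≤ q → q.Coprime W → ∀ ρ : ℕ, Filter.Tendsto (fun X : ℕ =>
    ({n : ℕ | n ≤ X ∧ n ∈ A ∧ n % q = ρ % q}.ncard : ℝ) / {n : ℕ | n ≤ X ∧ n ∈ A}.ncard)
    Filter.atTop (nhds (1 / (q : ℝ)))

/-- `E` has density zero relative to `A`. -/
def NullIn (A E : Set ℕ) : Prop := ∀ ε : ℝ, 0 < ε → ∃ X₀ : ℕ, ∀ X : ℕ, X₀ ≤ X →
  ({n : ℕ | n ≤ X ∧ n ∈ A ∧ n ∈ E}.ncard : ℝ) ≤ ε * {n : ℕ | n ≤ X ∧ n ∈ A}.ncard

/-- The place value `b 0 * b 1 * ⋯ * b (j - 1)`. -/
def placeValue (b : ℕ → ℕ) (j : ℕ) : ℕ := ∏ i ∈ Finset.range j, b i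

/-- `n ≥ 1`, and all digits of `n` in the mixed radix system with the bases `b 0, b 1, …` (`n` has a digit
in the position `j` if `placeValue b j ≤ n`) belong to the sets `D 0, D 1, …`. -/
def HasDigits (b : ℕ → ℕ) (D : ℕ → Set ℕ) (n : ℕ) : Prop :=
  1 ≤ n ∧ ∀ j, placeValue b j ≤ n → n / placeValue b j % b j ∈ D j

/-- The bases are at least `2` and at most `β`; in each position there is an admissible digit, and
in infinitely many positions there are two. -/
structure DigitSystem (b : ℕ → ℕ) (D : ℕ → Set ℕ) (β : ℕ) : Prop where
  two_le : ∀ j, 2 ≤ b j
  le : ∀ j, b j ≤ β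
  one_digit : ∀ j, ∃ d ∈ D j, d < b j
  two_digits : ∀ J, ∃ j, J ≤ j ∧ ∃ d ∈ D j, ∃ d' ∈ D j, d < d' ∧ d' < b j

theorem result :
    (∀ (W : ℕ) (A : Set ℕ), 1 ≤ W → UniformlyDistributed W A →
      ∃ E : Set ℕ, NullIn A E ∧
        (∀ K i : ℕ, Odd i → {n | n ∈ A ∧ n ∉ E ∧ 2 ≤ n ∧
          ∃ m, Odd m ∧ 3 ≤ m ∧ m.minFac ≤ K ∧ HasSingerDifferenceSet (n ^ i) m}.Finite) ∧
        ∀ i : ℕ, Odd i → {n | n ∈ A ∧ n ∉ E ∧ 2 ≤ n ∧
          ∃ m, Even m ∧ 4 ≤ m ∧ Liftable (n ^ i) m}.Finite) ∧
    (∀ (b : ℕ → ℕ) (D : ℕ → Set ℕ) (β : ℕ), DigitSystem b D β →
      {n | HasDigits b D n}.Infinite ∧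
      UniformlyDistributed β.factorial {n | HasDigits b D n}) :=
  ⟨fun _ _ hW hA => Pool.Agent.T9h85.DO.final hW hA,
    fun _ _ _ h => Pool.Agent.T9h85.DO.digits ⟨h.two_le, h.le, h.one_digit, h.two_digits⟩⟩

end Pool.Agent.Results.MP_79499b_co.DigitOrders
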