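import Pool.Agent.T9h96.LM.Even
import Pool.Agent.T9h96.LM.Params

set_option autoImplicit false

/-!
# Abelian difference sets with the parameters of `PG(3, n)`, `n` even: the lines with `n + 1` points

Let `D` be a difference set with the Singer parameters `(n, 4)` in a finite abelian group `G`, `n` even.
The line joining `1` and `g ≠ 1` is the intersection of all translates of `D` which contain both; it
has at most `n + 1` elements. It is long if it has `n + 1` elements; then `g` is long, otherwise `g` is
short.

If `n` is a power of `2` and `D` is a classical Singer difference set, then all lines are long. One of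
the long lines through `1` is a subgroup of order `n + 1`, the other ones have trivial stabiliser. We
consider long lines through `1` which are not subgroups, `n` being an arbitrary even number.

(1) Such a line contains an element `z` such that all `u = x z⁻¹`, `x ≠ z` another element of the line,
are admissible. This is a condition on the single element `u` and the primes dividing `n`: no product
`w` of primes dividing `n` satisfies `u ^ w = u⁻¹`; a relation `u ^ a u ^ b = u ^ c` with products `a`,
`b`, `c` of primes dividing `n` is possible only if `u ^ a = u ^ b`; and there are at most `n² + n`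
different powers `u ^ w`.

(2) So if there are less than `n` admissible elements, or if they generate a subgroup with at most
`n² + n` elements, then all long lines through `1` are subgroups, and all but at most `n` of the
elements `g ≠ 1` are short. This holds if `3`, `5` or `7` divides `n`, and for cyclic `G` if there are
products `a < b ≤ a + n` of primes dividing `n` such that `a + b` is such a product, too.

(A computation, not used in the proofs: for cyclic `G` one of these conditions holds for all even
`n ≤ 260` which are not powers of `2`.)

Proof. The polar of a long line `L` (all `g` with `g L ⊆ D`) is a translate of `L`, so after a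
translation `L L ⊆ D`. For even `n` the lines normalised in this way meet pairwise and are concurrent,
without loss of generality in `1`. If `L` is normalised so is `L ^ (2)`, by a dual of the theorem on the
nucleus of an oval; a calculation in the group ring modulo a large prime shows the same for `L ^ (p)` for
all primes `p` dividing `n`. So all powers `x ^ w` are in `D`, where `x` is on a normalised line `L`.
-/

namespace Pool.Agent.Results.MP_79499b_co.EvenOrderLines

open Finset

/-- The line joining `1` and `g`: all elements `z` which lie in every translate `D h⁻¹` of `D` that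
contains `1` and `g`. -/
def line {G : Type} [CommGroup G] [Fintype G] [DecidableEq G] (D : Finset G) (g : G) : Finset G :=
  univ.filter fun z => ∀ h ∈ D, g * h ∈ D → z * h ∈ D

/-- The short elements: `g ≠ 1` such that the line joining `1` and `g` does not have `n + 1`
elements. -/
def short {G : Type} [CommGroup G] [Fintype G] [DecidableEq G] (n : ℕ) (D : Finset G) : Finset G :=
  univ.filter fun g => g ≠ 1 ∧ (line D g).card ≠ n + 1

/-- `w` is a product of primes which divide `n` (repetitions allowed; `w = 1` is the empty
product). -/
def Good (n w : ℕ) : Prop := w ≠ 0 ∧ ∀ p : ℕ, p.Prime → p ∣ w → p ∣ n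

/-- Admissible elements: `u ^ w = u⁻¹` for no product `w` of primes dividing `n`; a relation
`u ^ a * u ^ b = u ^ c` with products `a`, `b`, `c` of primes dividing `n` implies `u ^ a = u ^ b`; and
there are at most `n ^ 2 + n` different powers `u ^ w` with products `w` of primes dividing `n`. -/
def Admissible {G : Type} [CommGroup G] (n : ℕ) (u : G) : Prop :=
  (∀ w : ℕ, Good n w → u ^ w ≠ u⁻¹) ∧
  (∀ a b c : ℕ, Good n a → Good n b → Good n c → u ^ a * u ^ b = u ^ c → u ^ a = u ^ b) ∧
  {y : G | ∃ w : ℕ, Good n w ∧ y = u ^ w}.ncard ≤ n ^ 2 + n

theorem result (n : ℕ) (hn : 2 ≤ n) (he : Even n) (G : Type) [CommGroup G] [Fintype G]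
    [DecidableEq G] (D : Finset G) (hv : Fintype.card G * (n - 1) = n ^ 4 - 1)
    (hk : D.card * (n - 1) = n ^ 3 - 1)
    (hl : ∀ g : G, g ≠ 1 →
      ((D ×ˢ D).filter (fun p : G × G => p.1 * p.2⁻¹ = g)).card * (n - 1) = n ^ 2 - 1) :
    -- (1) the long lines through `1` which are not subgroups
    (∀ g : G, g ≠ 1 → (line D g).card = n + 1 →
      (∃ H : Subgroup G, (H : Set G) = line D g) ∨
        ∃ z ∈ line D g, ∀ x ∈ line D g, x ≠ z → Admissible n (x * z⁻¹)) ∧
    -- (2) conditions for all long lines through `1` to be subgroups
    ({u : G | Admissible n u}.ncard < n ∨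
      Nat.card (Subgroup.closure {u : G | Admissible n u}) ≤ n ^ 2 + n ∨
      3 ∣ n ∨ 5 ∣ n ∨ 7 ∣ n ∨
      (IsCyclic G ∧ ∃ a b : ℕ, a < b ∧ b ≤ a + n ∧ Good n a ∧ Good n b ∧ Good n (a + b)) →
      (∀ g : G, g ≠ 1 → (line D g).card = n + 1 → ∃ H : Subgroup G, (H : Set G) = line D g) ∧
        Fintype.card G ≤ (short n D).card + (n + 1)) := by
  obtain ⟨lam, h, hlam⟩ := Pool.Agent.T9h96.LM.isDS_of hn le_rfl hv hk hl
  obtain rfl := hlam rfl
  refine ⟨?_, ?_⟩
  · intro g hg hc
    have hL := Pool.Agent.T9h96.LM.long_line' h hg hc
    by_cases hf : Pool.Agent.T9h96.LM.Free (Pool.Agent.T9h96.LM.line D g)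
    · exact Or.inr (Pool.Agent.T9h96.LM.shape h he hL hf)
    · exact Or.inl (hL.subgroup_of_not_free h (Pool.Agent.T9h96.LM.one_mem_line D g) hf)
  · intro hcase
    have hall : ∀ g : G, g ≠ 1 → (Pool.Agent.T9h96.LM.line D g).card = n + 1 →
        ∃ H : Subgroup G, (H : Set G) = Pool.Agent.T9h96.LM.line D g := by
      intro g hg hc
      have hL := Pool.Agent.T9h96.LM.long_line' h hg hc
      refine hL.subgroup_of_not_free h (Pool.Agent.T9h96.LM.one_mem_line D g) ?_
      rcases hcase with hc | hc | hc | hc | hc | ⟨hcyc, a, b, hab, hba, ha, hb, habg⟩
      · exact Pool.Agent.T9h96.LM.no_free_of_adm h he hL (Or.inl hc)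
      · exact Pool.Agent.T9h96.LM.no_free_of_adm h he hL (Or.inr hc)
      · exact Pool.Agent.T9h96.LM.no_free_of_dvd h he hL (Or.inl hc)
      · exact Pool.Agent.T9h96.LM.no_free_of_dvd h he hL (Or.inr (Or.inl hc))
      · exact Pool.Agent.T9h96.LM.no_free_of_dvd h he hL (Or.inr (Or.inr hc))
      · exact Pool.Agent.T9h96.LM.no_free_of_cyclic h he hL hab hba ha hb habg
    refine ⟨hall, ?_⟩
    apply Pool.Agent.T9h96.LM.card_le h hall
    apply Pool.Agent.T9h96.LM.not_sq_dvd hn le_rfl hv
    intro hd
    have := Nat.le_of_dvd (by norm_num) hd
    obtain ⟨j, hj⟩ := he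
    obtain ⟨i, hi⟩ := hd
    have hn2 : n = 2 ∨ 3 ≤ n := by omega
    rcases hn2 with h2 | h3
    · subst h2; omega
    · omega

end Pool.Agent.Results.MP_79499b_co.EvenOrderLines
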