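import Pool.Agent.T9h96.LM.Params

set_option autoImplicit false

/-!
# Abelian difference sets with Singer parameters: the prime divisors of `n` permute the long lines

Let `D` be a difference set with the Singer parameters `(n, m)`, `m ≥ 4`, in a finite abelian group
`G`. The line joining `1` and `g ≠ 1` is the intersection of all translates of `D` which contain
both; it has at most `n + 1` elements, and `g` is called short if it has fewer. By the theorem of
Dembowski and Wagner `n` is a prime power if there is no short element.

(1) A multiplier theorem for lines, without any condition on the size of the prime: for every prime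
`p` which divides `n` the map `x ↦ x ^ p` maps lines with `n + 1` elements to lines with `n + 1`
elements.

(2) Let `t` be a product of primes dividing `n` which inverts all elements of a subgroup `K`. Then a
line with `n + 1` elements through `1` is a subgroup or it has at most two elements in each coset of
`K`.

(3) If such a `K` has index at most `n / 2` (for instance if `- 1` is congruent modulo the exponent
of `G` to a product of primes dividing `n`), then all lines with `n + 1` elements through `1` are
subgroups. So if `m` is odd, then all elements `g ≠ 1` are short, and if `m` is not a multiple of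
`2 (n + 1)` (in particular for `m = 4`), then all but at most `n` of the elements `g ≠ 1` are short.

For (1) the group ring over the field with `p` elements is used: every block meets the image of a
long line in `1` modulo `p` points, so it is a blocking set with `n + 1` points, and by a counting
argument of Bose and Burton it is a line.
-/

namespace Pool.Agent.Results.MP_79499b_co.LineMultipliers

open Finset

/-- The line joining `1` and `g`: all elements `z` which lie in every translate `D h⁻¹` of `D` that
contains `1` and `g`. -/
def line {G : Type} [CommGroup G] [Fintype G] [DecidableEq G] (D : Finset G) (g : G) : Finset G :=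
  univ.filter fun z => ∀ h ∈ D, g * h ∈ D → z * h ∈ D

/-- The short elements: `g ≠ 1` such that the line joining `1` and `g` does not have `n + 1`
elements. -/
def short {G : Type} [CommGroup G] [Fintype G] [DecidableEq G] (n : ℕ) (D : Finset G) : Finset G :=
  univ.filter fun g => g ≠ 1 ∧ (line D g).card ≠ n + 1

theorem result (n m : ℕ) (hn : 2 ≤ n) (hm : 4 ≤ m) (G : Type) [CommGroup G] [Fintype G]
    [DecidableEq G] (D : Finset G) (hv : Fintype.card G * (n - 1) = n ^ m - 1)
    (hk : D.card * (n - 1) = n ^ (m - 1) - 1)
    (hl : ∀ g : G, g ≠ 1 →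
      ((D ×ˢ D).filter (fun p : G × G => p.1 * p.2⁻¹ = g)).card * (n - 1) = n ^ (m - 2) - 1) :
    -- (1) the prime divisors of `n` permute the long lines
    (∀ p : ℕ, p.Prime → p ∣ n → ∀ g : G, g ≠ 1 → (line D g).card = n + 1 →
      line D (g ^ p) = (line D g).image (fun x => x ^ p) ∧ (line D (g ^ p)).card = n + 1) ∧
    -- products of primes dividing `n` which invert a subgroup
    ∀ (t : ℕ) (K : Subgroup G), t ≠ 0 → (∀ p : ℕ, p.Prime → p ∣ t → p ∣ n) →
      (∀ x ∈ K, x ^ t = x⁻¹) →
      -- (2)
      (∀ g : G, g ≠ 1 → (line D g).card = n + 1 →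
        (∃ H : Subgroup G, (H : Set G) = line D g) ∨
          ∀ x : G, {y : G | y ∈ line D g ∧ y * x⁻¹ ∈ K}.ncard ≤ 2) ∧
      -- (3)
      (2 * K.index ≤ n →
        (∀ g : G, g ≠ 1 → (line D g).card = n + 1 → ∃ H : Subgroup G, (H : Set G) = line D g) ∧
        (Odd m → ∀ g : G, g ≠ 1 → g ∈ short n D) ∧
        (¬ 2 * (n + 1) ∣ m → Fintype.card G ≤ (short n D).card + (n + 1))) := by
  obtain ⟨lam, h, _⟩ := Pool.Agent.T9h96.LM.isDS_of hn hm hv hk hl
  refine ⟨?_, ?_⟩
  · intro p hp hpn g hg hc
    have hL := Pool.Agent.T9h96.LM.long_line' h hg hc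
    have hLp := hL.pw_prime h hp hpn
    have hcop := h.coprime hpn
    have h1 : (1 : G) ∈ Pool.Agent.T9h96.LM.pw p (Pool.Agent.T9h96.LM.line D g) := by
      have := (Pool.Agent.T9h96.LM.pow_mem_pw hcop).2 (Pool.Agent.T9h96.LM.one_mem_line D g)
      rwa [one_pow] at this
    have h2 := (Pool.Agent.T9h96.LM.pow_mem_pw hcop).2 (Pool.Agent.T9h96.LM.self_mem_line D g)
    have hgp : g ^ p ≠ 1 := by
      intro e; apply hg
      apply Pool.Agent.T9h96.LM.pow_injective hcop
      simp only
      rw [e, one_pow]
    have h3 := hLp.line_eq h hgp h1 h2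
    have h4 : line D (g ^ p) = (line D g).image (fun x => x ^ p) := h3
    refine ⟨h4, ?_⟩
    have h5 : (line D (g ^ p)).card = (Pool.Agent.T9h96.LM.pw p (Pool.Agent.T9h96.LM.line D g)).card :=
      congrArg Finset.card h3
    rw [h5, hLp.1]
  · intro t K ht htn hK
    have hgood : Pool.Agent.T9h96.LM.Good n t := ⟨ht, htn⟩
    refine ⟨?_, ?_⟩
    · intro g hg hc
      have hL := Pool.Agent.T9h96.LM.long_line' h hg hc
      by_cases hf : Pool.Agent.T9h96.LM.Free (Pool.Agent.T9h96.LM.line D g)
      · right
        intro x
        by_contra hcon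
        push Not at hcon
        obtain ⟨a, b, c, ha, hb, hcc, hab, hac, hbc⟩ := (Set.two_lt_ncard_iff (Set.toFinite _)).1 hcon
        have key : ∀ u v : G, u * x⁻¹ ∈ K → v * x⁻¹ ∈ K → v * u⁻¹ ∈ K := by
          intro u v hu hv
          have := K.mul_mem hv (K.inv_mem hu)
          have e : v * x⁻¹ * (u * x⁻¹)⁻¹ = v * u⁻¹ := by group
          rwa [e] at this
        exact hL.fibre h hf hgood hK ha.1 hb.1 hcc.1 hab hac hbc (key a b ha.2 hb.2)
          (key a c ha.2 hcc.2)
      · left
        exact hL.subgroup_of_not_free h (Pool.Agent.T9h96.LM.one_mem_line D g) hf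
    · intro hi
      have hall : ∀ g : G, g ≠ 1 → (Pool.Agent.T9h96.LM.line D g).card = n + 1 →
          ∃ H : Subgroup G, (H : Set G) = Pool.Agent.T9h96.LM.line D g := by
        intro g hg hc
        have hL := Pool.Agent.T9h96.LM.long_line' h hg hc
        exact hL.subgroup_of_not_free h (Pool.Agent.T9h96.LM.one_mem_line D g)
          (hL.not_free h hgood hK hi)
      refine ⟨hall, ?_, ?_⟩
      · intro ho g hg
        unfold short
        rw [mem_filter]
        refine ⟨mem_univ _, hg, fun hc => ?_⟩
        obtain ⟨H, hH⟩ := hall g hg hc
        apply Pool.Agent.T9h96.LM.not_dvd_of_odd hn hm hv ho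
        have h1 := Pool.Agent.T9h96.LM.card_of_subgroup hH
        have h2 : (Pool.Agent.T9h96.LM.line D g).card = n + 1 := hc
        rw [← h2, ← h1, ← Nat.card_eq_fintype_card]
        exact Subgroup.card_subgroup_dvd_card H
      · intro hnd
        exact Pool.Agent.T9h96.LM.card_le h hall
          (Pool.Agent.T9h96.LM.not_sq_dvd hn hm hv hnd)

end Pool.Agent.Results.MP_79499b_co.LineMultipliers
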