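import Pool.Agent.T9h96.SG.Main
import Pool.Agent.N345.DW.Final

set_option autoImplicit false

/-!
# Difference sets with Singer parameters: the proportion of short lines

Let `D` be a difference set with the Singer parameters `(n, m)`, `m ≥ 4`, in a finite group `G`. The
line joining `1` and `g ≠ 1` is the intersection of all right translates of `D` which contain both;
it has at most `n + 1` elements, and `g` is called short if it has fewer. If there is no short
element then `n` is a prime power (Dembowski and Wagner), and the starting result `ShortLinesGap`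
shows that there are at least `n (2 n - 1)` short elements if `n` is not a prime power (at least
`2 n ^ 2` if `m = 4`).

Here: if `n` is not a prime power then at least `(|G| - n - 1) / (n + 1)` elements are short, in
particular at least `n ^ (m - 2)`: for every `m` a proportion of at least about `1 / (n + 1)` of all
elements, whereas the earlier bound is quadratic in `n` for all `m`. More generally, in every
symmetric design with the parameters of the hyperplanes of `PG(m - 1, n)`, `n` not a prime power,
some point is joined to at least `(v - n - 1) / (n + 1)` points by short lines.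

The proof has three parts. (1) A long line `l` such that the numbers of points joined to the points
of `l` by short lines have a sum less than `v - n - 1` lies in a projective plane of order `n` all
of whose lines are long; this rests on a gap theorem for partial projective planes whose lines
pairwise meet: the number of missing lines is zero or at least `n + 2`. (2) Desargues' theorem holds
in such a plane if every point is joined to fewer than a tenth of all points by short lines.
(3) A Desarguesian plane has prime power order.
-/

namespace Pool.Agent.Results.MP_79499b_co.ShortLinesProportion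

open Finset

/-- The line joining the points `p` and `q` of a design: all points which lie in every block that
contains `p` and `q`. -/
def lineThrough {v : ℕ} (B : Fin v → Finset (Fin v)) (p q : Fin v) : Finset (Fin v) :=
  univ.filter fun z => ∀ i, p ∈ B i → q ∈ B i → z ∈ B i

/-- The points joined to `p` by a short line, that is a line which does not have `n + 1` points. -/
def shortAt {v : ℕ} (n : ℕ) (B : Fin v → Finset (Fin v)) (p : Fin v) : Finset (Fin v) :=
  univ.filter fun q => q ≠ p ∧ (lineThrough B p q).card ≠ n + 1

/-- The line joining `1` and `g`: all elements `z` which lie in every right translate `D h⁻¹` of `D`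
that contains `1` and `g`. -/
def line {G : Type} [Group G] [Fintype G] [DecidableEq G] (D : Finset G) (g : G) : Finset G :=
  univ.filter fun z => ∀ h ∈ D, g * h ∈ D → z * h ∈ D

/-- The short elements: `g ≠ 1` such that the line joining `1` and `g` does not have `n + 1`
elements. -/
def short {G : Type} [Group G] [Fintype G] [DecidableEq G] (n : ℕ) (D : Finset G) : Finset G :=
  univ.filter fun g => g ≠ 1 ∧ (line D g).card ≠ n + 1

theorem result (n m : ℕ) (hn : 2 ≤ n) (hm : 4 ≤ m) (hnp : ¬ IsPrimePow n) :
    -- symmetric designs with the parameters of the hyperplanes of `PG(m - 1, n)`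
    (∀ (v k lam : ℕ) (B : Fin v → Finset (Fin v)), v * (n - 1) = n ^ m - 1 →
      k * (n - 1) = n ^ (m - 1) - 1 → lam * (n - 1) = n ^ (m - 2) - 1 →
      (∀ i, (B i).card = k) →
      (∀ x y, x ≠ y → (univ.filter fun i => x ∈ B i ∧ y ∈ B i).card = lam) →
      ∃ p, v ≤ (n + 1) * (shortAt n B p).card + (n + 1)) ∧
    -- difference sets
    (∀ (G : Type) [Group G] [Fintype G] [DecidableEq G] (D : Finset G),
      Fintype.card G * (n - 1) = n ^ m - 1 → D.card * (n - 1) = n ^ (m - 1) - 1 →
      (∀ g : G, g ≠ 1 →
        ((D ×ˢ D).filter (fun p : G × G => p.1 * p.2⁻¹ = g)).card * (n - 1) = n ^ (m - 2) - 1) →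
      Fintype.card G ≤ (n + 1) * (short n D).card + (n + 1) ∧
        n ^ (m - 2) ≤ (short n D).card) := by
  constructor
  · intro v k lam B hv hk hl hs hp
    obtain ⟨r, hr, hr4, e1, e2, e3⟩ := Pool.Agent.N345.DW.params hn hm hv hk hl
    have h := Pool.Agent.N345.DW.dsg_fin hn hr e1 e2 e3 hs hp
    have hLT : ∀ p q, lineThrough B p q = Pool.Agent.N345.DW.L B p q := by
      intro p q
      ext z
      simp [lineThrough, Pool.Agent.N345.DW.L]
    have hY : ∀ p, shortAt n B p = Pool.Agent.N345.DW.Y n B p := by
      intro p
      ext q
      simp [shortAt, Pool.Agent.N345.DW.Y, hLT]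
    by_contra hcon
    push Not at hcon
    apply hnp
    refine Pool.Agent.T9h96.SG.primePow' h hr fun p => ?_
    have h1 := hcon p
    rw [hY] at h1
    have hv' : v = n ^ 2 * (r * n + 1) + (n + 1) := by
      rw [e3]
      ring
    omega
  · intro G _ _ _ D hG hD hg
    obtain ⟨g0, hg0⟩ : ∃ g : G, g ≠ 1 := by
      have hc : 1 < Fintype.card G := by
        by_contra hle
        push Not at hle
        have h1 : Fintype.card G * (n - 1) ≤ n - 1 := by
          calc Fintype.card G * (n - 1) ≤ 1 * (n - 1) := Nat.mul_le_mul_right _ hle
            _ = n - 1 := one_mul _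
        rw [hG] at h1
        have h2 : n ^ 2 ≤ n ^ m := Nat.pow_le_pow_right (by omega) (by omega)
        have h3 : n < n ^ 2 := by nlinarith
        omega
      have : Nontrivial G := Fintype.one_lt_card_iff_nontrivial.1 hc
      exact exists_ne 1
    obtain ⟨r, hr, hr4, e1, e2, e3⟩ := Pool.Agent.N345.DW.params hn hm hG hD (hg g0 hg0)
    have hlam : ∀ g : G, g ≠ 1 →
        ((D ×ˢ D).filter (fun p : G × G => p.1 * p.2⁻¹ = g)).card = r * n + 1 := by
      intro g hg1
      rw [← e1]
      apply Nat.eq_of_mul_eq_mul_right (show 0 < n - 1 by omega)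
      rw [hg g hg1, hg g0 hg0]
    have h := Pool.Agent.N345.DW.dsg_group hn hr e3 e2 hlam
    have hL : ∀ g, line D g = Pool.Agent.N345.DW.L (Pool.Agent.N345.DW.tr D) 1 g := by
      intro g
      ext z
      rw [Pool.Agent.N345.DW.mem_L, line, mem_filter]
      simp only [Pool.Agent.N345.DW.mem_tr, one_mul, mem_univ, true_and]
    have hSp : ∀ p, (Pool.Agent.N345.DW.Y n (Pool.Agent.N345.DW.tr D) p).card =
        (short n D).card := by
      intro p
      symm
      apply Finset.card_bij (fun g _ => g * p)
      · intro g hg
        rw [short, mem_filter, hL] at hg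
        rw [Pool.Agent.N345.DW.mem_Y, Pool.Agent.N345.DW.L_one]
        refine ⟨fun e => hg.2.1 (mul_eq_right.1 e), ?_⟩
        rw [mul_inv_cancel_right]
        exact hg.2.2
      · intro a _ b _ e
        exact mul_right_cancel e
      · intro q hq
        rw [Pool.Agent.N345.DW.mem_Y, Pool.Agent.N345.DW.L_one] at hq
        refine ⟨q * p⁻¹, ?_, by simp⟩
        rw [short, mem_filter, hL]
        exact ⟨mem_univ _, fun e => hq.1 (mul_inv_eq_one.1 e), hq.2⟩
    have hcG : Fintype.card G = n ^ 2 * (r * n + 1) + (n + 1) := by
      rw [e3]
      ring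
    have hmain : n ^ 2 * (r * n + 1) ≤ (n + 1) * (short n D).card := by
      by_contra hcon
      push Not at hcon
      apply hnp
      refine Pool.Agent.T9h96.SG.primePow' h hr fun p => ?_
      rw [hSp]
      exact hcon
    refine ⟨by omega, ?_⟩
    -- `(n ^ 2 - 1) * |short| ≥ n ^ m - n ^ 2`
    have h1 : (r * n + 1) * (n - 1) = n ^ (m - 2) - 1 := by
      rw [← hlam g0 hg0]
      exact hg g0 hg0
    obtain ⟨a, rfl⟩ : ∃ a, n = a + 1 := ⟨n - 1, by omega⟩
    simp only [Nat.add_sub_cancel] at h1
    obtain ⟨c, rfl⟩ : ∃ c, m = c + 4 := ⟨m - 4, by omega⟩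
    have h2 : c + 4 - 2 = c + 2 := by omega
    rw [h2] at h1 ⊢
    have hpow : (a + 1) ^ 2 ≤ (a + 1) ^ (c + 2) := Nat.pow_le_pow_right (by omega) (by omega)
    have h3 : (r * (a + 1) + 1) * a + 1 = (a + 1) ^ (c + 2) := by
      have : 0 < (a + 1) ^ (c + 2) := by positivity
      omega
    generalize (short (a + 1) D).card = s at hmain ⊢
    generalize (a + 1) ^ (c + 2) = w at h3 hpow ⊢
    generalize r * (a + 1) + 1 = l at h3 hmain
    -- `a l + 1 = w`, `(a + 1) ^ 2 l ≤ (a + 2) s`
    have h4 : (a * (a + 2)) * w ≤ (a * (a + 2)) * s := by
      have h5 : a * ((a + 1) ^ 2 * l) ≤ a * ((a + 1 + 1) * s) := Nat.mul_le_mul_left _ hmain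
      have h6 : a * ((a + 1) ^ 2 * l) + (a + 1) ^ 2 = (a + 1) ^ 2 * w := by
        rw [← h3]; ring
      nlinarith
    have ha : 0 < a * (a + 2) := by
      have : 0 < a := by omega
      positivity
    exact Nat.le_of_mul_le_mul_left h4 ha

end Pool.Agent.Results.MP_79499b_co.ShortLinesProportion
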